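import Pool.Agent.E8helper15.FT.Stm3

/-!
# Project FT, part LOC: the primes `p` such that `p - 1` divides `m`
-/

set_option autoImplicit false

namespace Pool.Agent.E8helper91.FT

open Pool.Agent.E8helper15.FT

theorem pow_sub_one_dvd {p m : ℕ} (hp : p.Prime) (hm : p - 1 ∣ m) {a : ℤ} (ha : ¬ (p : ℤ) ∣ a) :
    (p : ℤ) ∣ a ^ m - 1 := by
  have : Fact p.Prime := ⟨hp⟩
  obtain ⟨k, rfl⟩ := hm
  rw [← ZMod.intCast_zmod_eq_zero_iff_dvd] at ha
  rw [← ZMod.intCast_zmod_eq_zero_iff_dvd]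
  push_cast
  rw [pow_mul, ZMod.pow_card_sub_one_eq_one ha, one_pow, sub_self]

theorem t_LOC : S_LOC := by
  intro p m s u v hp hp2 hpm hm hs hv _ huv
  have hpi : Prime (p : ℤ) := Nat.prime_iff_prime_int.1 hp
  obtain ⟨a, ha⟩ : ∃ a : ℤ, a = s.num := ⟨_, rfl⟩
  obtain ⟨b, hb⟩ : ∃ b : ℤ, b = (s.den : ℤ) := ⟨_, rfl⟩
  have hb0 : b ≠ 0 := by
    rw [hb]
    exact_mod_cast s.den_nz
  have hbq : (b : ℚ) ≠ 0 := by exact_mod_cast hb0
  have hsab : s = (a : ℚ) / b := by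
    rw [ha, hb, Int.cast_natCast]
    exact (Rat.num_div_den s).symm
  have hcop : IsCoprime a b := by
    rw [ha, hb, Int.isCoprime_iff_gcd_eq_one]
    exact s.reduced
  have hvq : (v : ℚ) ≠ 0 := by exact_mod_cast hv
  have hBm : (b : ℚ) ^ m ≠ 0 := pow_ne_zero _ hbq
  have hsm : s ^ m = (a : ℚ) ^ m / (b : ℚ) ^ m := by rw [hsab, div_pow]
  rw [hsm] at hs huv
  have hd : ((b : ℚ) ^ m) ^ 2 - ((a : ℚ) ^ m) ^ 2 ≠ 0 := by
    intro h
    apply hs
    rw [div_pow, div_eq_one_iff_eq (pow_ne_zero 2 hBm)]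
    linarith
  have hd' : 1 - ((a : ℚ) ^ m / (b : ℚ) ^ m) ^ 2 ≠ 0 := by
    intro h
    apply hs
    linarith
  have key : (u : ℚ) * (((b : ℚ) ^ m) ^ 2 - ((a : ℚ) ^ m) ^ 2) = 2 * (a : ℚ) ^ m * (b : ℚ) ^ m * v := by
    have e1 : 1 - ((a : ℚ) ^ m / (b : ℚ) ^ m) ^ 2 =
        (((b : ℚ) ^ m) ^ 2 - ((a : ℚ) ^ m) ^ 2) / ((b : ℚ) ^ m) ^ 2 := by
      rw [div_pow, eq_div_iff (pow_ne_zero 2 hBm), sub_mul, div_mul_cancel₀ _ (pow_ne_zero 2 hBm),
        one_mul]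
    rw [e1, div_div_eq_mul_div, div_eq_div_iff hvq hd] at huv
    have e2 : 2 * ((a : ℚ) ^ m / (b : ℚ) ^ m) * ((b : ℚ) ^ m) ^ 2 = 2 * (a : ℚ) ^ m * (b : ℚ) ^ m := by
      field_simp
    rw [e2] at huv
    exact huv
  have keyZ : u * ((b ^ m) ^ 2 - (a ^ m) ^ 2) = 2 * a ^ m * b ^ m * v := by exact_mod_cast key
  by_cases hA : (p : ℤ) ∣ a
  · have hB : ¬ (p : ℤ) ∣ b := fun h => hpi.not_isUnit (hcop.isUnit_of_dvd' hA h)
    have h1 : (p : ℤ) ∣ u * ((b ^ m) ^ 2 - (a ^ m) ^ 2) := by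
      rw [keyZ]
      exact Dvd.dvd.mul_right (Dvd.dvd.mul_right (Dvd.dvd.mul_left (dvd_pow hA (by omega)) _) _) _
    rcases hpi.dvd_or_dvd h1 with h | h
    · exact h.mul_right v
    · exfalso
      have h2 : (p : ℤ) ∣ (a ^ m) ^ 2 := dvd_pow (dvd_pow hA (by omega)) two_ne_zero
      have h3 := dvd_add h h2
      rw [sub_add_cancel] at h3
      exact hB (hpi.dvd_of_dvd_pow (hpi.dvd_of_dvd_pow h3))
  · by_cases hB : (p : ℤ) ∣ b
    · have h1 : (p : ℤ) ∣ u * ((b ^ m) ^ 2 - (a ^ m) ^ 2) := by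
        rw [keyZ]
        exact Dvd.dvd.mul_right (Dvd.dvd.mul_left (dvd_pow hB (by omega)) _) _
      rcases hpi.dvd_or_dvd h1 with h | h
      · exact h.mul_right v
      · exfalso
        have h2 : (p : ℤ) ∣ (b ^ m) ^ 2 := dvd_pow (dvd_pow hB (by omega)) two_ne_zero
        have h3 := dvd_sub h2 h
        rw [sub_sub_cancel] at h3
        exact hA (hpi.dvd_of_dvd_pow (hpi.dvd_of_dvd_pow h3))
    · have h1 := pow_sub_one_dvd hp hpm hA
      have h2 := pow_sub_one_dvd hp hpm hB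
      have h3 : (p : ℤ) ∣ (b ^ m) ^ 2 - (a ^ m) ^ 2 := by
        have e : (b ^ m) ^ 2 - (a ^ m) ^ 2 =
            (b ^ m - 1) * (b ^ m + 1) - (a ^ m - 1) * (a ^ m + 1) := by ring
        rw [e]
        exact dvd_sub (h2.mul_right _) (h1.mul_right _)
      have h4 : (p : ℤ) ∣ 2 * a ^ m * b ^ m * v := by
        rw [← keyZ]
        exact h3.mul_left u
      rcases hpi.dvd_or_dvd h4 with h | h
      · exfalso
        rcases hpi.dvd_or_dvd h with h | h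
        · rcases hpi.dvd_or_dvd h with h | h
          · have h5 : p ∣ 2 := by exact_mod_cast h
            exact hp2 ((Nat.prime_dvd_prime_iff_eq hp Nat.prime_two).1 h5)
          · exact hA (hpi.dvd_of_dvd_pow h)
        · exact hB (hpi.dvd_of_dvd_pow h)
      · exact h.mul_left u

end Pool.Agent.E8helper91.FT
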