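import Pool.Agent.E8helper15.FT.Stm

/-!
# Project FT, part SUP: the primes at which `y` has order at least `m`
-/

set_option autoImplicit false

namespace Pool.Agent.E8helper91.FT

open NumberField IsDedekindDomain
open Pool.Agent.E8helper15.FT
open scoped NNReal

theorem toNN_exp {e : ℝ≥0} (he : e ≠ 0) (n : ℤ) :
    WithZeroMulInt.toNNReal he (WithZero.exp n) = e ^ n := by
  rw [WithZeroMulInt.toNNReal_neg_apply he WithZero.exp_ne_zero]
  rfl

section

variable {K : Type} [Field K] [NumberField K]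

theorem height_eq (j : K) :
    Height.logHeight₁ j = ∑ w : InfinitePlace K, (w.mult : ℝ) * Real.log (max (w j) 1) +
      ∑ᶠ v : HeightOneSpectrum (𝓞 K), Real.log (max (FinitePlace.mk v j) 1) := by
  rw [NumberField.logHeight₁_eq]
  congr 1
  · refine Finset.sum_congr rfl fun w _ => ?_
    rw [Real.posLog_eq_log_max_one (apply_nonneg _ _), max_comm]
  · rw [← finsum_comp_equiv (FinitePlace.equivHeightOneSpectrum (K := K)).symm]
    refine finsum_congr fun v => ?_
    rw [Real.posLog_eq_log_max_one (apply_nonneg _ _), max_comm]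
    rfl

theorem mk_eq (v : HeightOneSpectrum (𝓞 K)) (y : K) :
    FinitePlace.mk v y =
      (WithZeroMulInt.toNNReal (HeightOneSpectrum.absNorm_ne_zero v) (v.valuation K y) : ℝ) := by
  rw [FinitePlace.mk_apply, FinitePlace.norm_embedding']

theorem val_fin {y : K} (hy : y ≠ 0) : {v : HeightOneSpectrum (𝓞 K) | v.valuation K y ≠ 1}.Finite := by
  have h1 : {w : FinitePlace K | w y ≠ 1}.Finite := FinitePlace.hasFiniteMulSupport hy
  have h2 := h1.preimage (f := fun v : HeightOneSpectrum (𝓞 K) => FinitePlace.mk v)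
    (fun a _ b _ hab => FinitePlace.mk_eq_iff.1 hab)
  refine h2.subset fun v hv => ?_
  change FinitePlace.mk v y ≠ 1
  rw [mk_eq]
  intro h
  apply hv
  have h3 : WithZeroMulInt.toNNReal (HeightOneSpectrum.absNorm_ne_zero v) (v.valuation K y) = 1 := by
    exact_mod_cast h
  exact (WithZeroMulInt.toNNReal_eq_one_iff _ (HeightOneSpectrum.absNorm_ne_zero v)
    (HeightOneSpectrum.one_lt_absNorm_nnreal v).ne').1 h3

theorem mk_one {v : HeightOneSpectrum (𝓞 K)} {y : K} (h : v.valuation K y = 1) :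
    FinitePlace.mk v y = 1 := by
  rw [mk_eq, h, map_one, NNReal.coe_one]

end

theorem t_SUP : S_SUP := by
  intro K _ _ y hy
  refine ⟨val_fin hy, fun m _ F hF => ?_⟩
  classical
  have hy' : y⁻¹ ≠ 0 := inv_ne_zero hy
  rw [← Height.logHeight₁_inv, height_eq]
  have h1 : 0 ≤ ∑ w : InfinitePlace K, (w.mult : ℝ) * Real.log (max (w y⁻¹) 1) :=
    Finset.sum_nonneg fun w _ => mul_nonneg (Nat.cast_nonneg _) (Real.log_nonneg (le_max_right _ _))
  have h2 : ∑ᶠ v : HeightOneSpectrum (𝓞 K), Real.log (max (FinitePlace.mk v y⁻¹) 1) =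
      ∑ v ∈ F ∪ (val_fin hy').toFinset, Real.log (max (FinitePlace.mk v y⁻¹) 1) := by
    refine finsum_eq_sum_of_support_subset _ fun v hv => ?_
    rw [Finset.coe_union, Set.Finite.coe_toFinset]
    right
    intro h
    apply hv
    change Real.log (max (FinitePlace.mk v y⁻¹) 1) = 0
    rw [mk_one h, max_self, Real.log_one]
  have h3 : ∑ v ∈ F, Real.log (max (FinitePlace.mk v y⁻¹) 1) ≤
      ∑ v ∈ F ∪ (val_fin hy').toFinset, Real.log (max (FinitePlace.mk v y⁻¹) 1) :=
    Finset.sum_le_sum_of_subset_of_nonneg Finset.subset_union_left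
      fun v _ _ => Real.log_nonneg (le_max_right _ _)
  have h4 : m * ∑ v ∈ F, Real.log (Ideal.absNorm v.asIdeal) ≤
      ∑ v ∈ F, Real.log (max (FinitePlace.mk v y⁻¹) 1) := by
    rw [Finset.mul_sum]
    refine Finset.sum_le_sum fun v hv => ?_
    have hpos : 0 < FinitePlace.mk v y := FinitePlace.pos_iff.2 hy
    have hle : FinitePlace.mk v y ≤ ((Ideal.absNorm v.asIdeal : ℝ)) ^ (-(m : ℤ)) := by
      rw [mk_eq]
      have h5 := (WithZeroMulInt.toNNReal_strictMono
        (HeightOneSpectrum.one_lt_absNorm_nnreal v)).monotone (hF v hv)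
      rw [toNN_exp] at h5
      exact_mod_cast h5
    have h6 : Real.log (FinitePlace.mk v y) ≤ -(m * Real.log (Ideal.absNorm v.asIdeal)) := by
      have h7 := Real.log_le_log hpos hle
      rw [Real.log_zpow] at h7
      push_cast at h7
      linarith
    have h8 : FinitePlace.mk v y⁻¹ = (FinitePlace.mk v y)⁻¹ := map_inv₀ _ y
    have h9 : 0 < FinitePlace.mk v y⁻¹ := FinitePlace.pos_iff.2 hy'
    calc m * Real.log (Ideal.absNorm v.asIdeal) ≤ -Real.log (FinitePlace.mk v y) := by linarith
      _ = Real.log (FinitePlace.mk v y⁻¹) := by rw [h8, Real.log_inv]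
      _ ≤ Real.log (max (FinitePlace.mk v y⁻¹) 1) := Real.log_le_log h9 (le_max_left _ _)
  rw [h2]
  linarith

end Pool.Agent.E8helper91.FT
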